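import Pool.Agent.Helper41.PP.Final2

/-!
# The Path Partition Conjecture for all graphs up to an error of order `b ^ (2 / 3)`

Let every path of the finite graph `G` have at most `a + b` vertices, `b < n ^ 3`. Then the vertices
split into two parts such that the paths of the first part have at most `a + 5 n ^ 2` vertices and
those of the second part at most `b`.

Proof. Let `X` be a smallest set which meets all paths with more than `b` vertices, and let `R` be a
path in `G[X]`. By the choice of `X` and Menger's theorem there are many disjoint connections outside
`X` between the two end segments of `R`, one of them is short (Erdős-Szekeres and a zigzag path), a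
path `P` with `b + 1` vertices avoids it, and `P` has many disjoint connections to the other end
segment of `R`. Two of them start near each other on `P`, and the middle of `R` can be inserted.
-/

namespace Pool.Agent.Results.MP_0422d5_co.AsymptoticPathPartition

theorem result (V : Type) [Fintype V] (G : SimpleGraph V) (a b n : ℕ)
    (h : ∀ (u v : V) (q : G.Walk u v), q.IsPath → q.support.length ≤ a + b)
    (hn : b < n ^ 3) :
    ∃ S : Set V,
      (∀ (u v : ↥S) (q : (G.induce S).Walk u v), q.IsPath →
        q.support.length ≤ a + 5 * n ^ 2) ∧
      (∀ (u v : ↥Sᶜ) (q : (G.induce Sᶜ).Walk u v), q.IsPath → q.support.length ≤ b) := by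
  classical
  obtain ⟨M, hM, hmax⟩ := Helper41.PP.exists_maximum G b
  refine ⟨(M : Set V)ᶜ, (Helper41.PP.maximum_sets G a b h M hM hmax).2 n hn, ?_⟩
  rw [compl_compl]
  exact hM

end Pool.Agent.Results.MP_0422d5_co.AsymptoticPathPartition
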