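import Pool.Agent.Helper49.PP.Final
import Pool.Agent.Helper49.PP.Draw2

/-!
# The Path Partition Conjecture for planar graphs in a linear range

Let `G` be a finite graph which can be drawn in the plane without crossings (the hypothesis of the
frozen statement `S06939`), and let all paths of `G` have at most `a + b` vertices. If
`a ≥ 67 (b - 1)` or `b ≥ 67 (a - 1)` then `G` has an exact `(a, b)`-partition.

Proof. Let `X` be a smallest set which meets all paths with more than `b` vertices, and suppose that
`G[X]` has a path with `a + 1` vertices. By `Pool/Agent/Helper41/PP` there is a cycle `C` with
`N ≥ a + 1 + c` vertices, `c < b`, such that (with `D` the set of the vertices outside of `X` and `C`)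
no component of `D` is attached to two consecutive vertices of `C`; two vertices of `C` with a common
component have no common component for their successors; at most `c` vertices are high; and any
`c + 1` low vertices contain two with a common component.

1. For a set `P` of low vertices of `C` take a minimal family of components which gives all pairs
with a common component. Each member `K` has a private pair; contract `K` to one vertex of its
pair: a planar graph on `P`, so there are less than `3 |P|` members. Contract the members to
vertices: so there are less than `3 (|P| + 3 |P|)` attachments, and some `x ∈ P` is attached to at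
most `11` members, which are attached to all vertices of `P` with a common component with `x`.
Take `x` and these components, delete the vertices to which they are attached, and repeat: the
vertices `x` form an independent set, so there are at most `c` of them, and at most `11 c`
components cover all low vertices up to the isolated ones.
2. Choose one of these components for each covered vertex of `C` and contract. The pairs
(component of `x`, component of the successor of `x`) are different, so there are less than
`6 * 11 c` of them. Hence `N ≤ 68 c`, and `a + 1 ≤ 67 c ≤ 67 (b - 1)`.
3. The bound for the number of edges of minors: a graph without a `K₅` minor has at most `3 n - 6`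
edges (`n ≥ 3`, Mader).
4. A graph which is drawn in the plane has no `K₅` minor: for disjoint curves `α`, `β` the function
`α(s) - β(t)` has a continuous logarithm on the plane, which gives a relation between the changes
of the arguments; for the 15 pairs of independent edges of `K₅` these are contradictory modulo `2`.
-/

namespace Pool.Agent.Results.MP_0422d5_co.PlanarLinearRange

open Pool.Agent.Helper49.PP

theorem result (V : Type) [Fintype V] (G : SimpleGraph V)
    (hG : ∃ (p : V → ℝ × ℝ) (γ : V → V → unitInterval → ℝ × ℝ),
      Function.Injective p ∧
      (∀ u v : V, G.Adj u v →
        Continuous (γ u v) ∧ Function.Injective (γ u v) ∧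
        γ u v 0 = p u ∧ γ u v 1 = p v ∧
        ∀ w : V, w ≠ u → w ≠ v → ∀ t : unitInterval, γ u v t ≠ p w) ∧
      (∀ u v w x : V, G.Adj u v → G.Adj w x → s(u, v) ≠ s(w, x) →
        ∀ t₁ t₂ : unitInterval, γ u v t₁ = γ w x t₂ →
          (γ u v t₁ = p u ∨ γ u v t₁ = p v) ∧
          (γ u v t₁ = p w ∨ γ u v t₁ = p x)))
    (a b : ℕ) (hab : 67 * (b - 1) ≤ a ∨ 67 * (a - 1) ≤ b)
    (h : ∀ (u v : V) (q : G.Walk u v), q.IsPath → q.support.length ≤ a + b) :
    ∃ S : Set V,
      (∀ (u v : ↥S) (q : (G.induce S).Walk u v), q.IsPath → q.support.length ≤ a) ∧
      (∀ (u v : ↥Sᶜ) (q : (G.induce Sᶜ).Walk u v), q.IsPath → q.support.length ≤ b) := by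
  obtain ⟨p, γ, h1, h2, h3⟩ := hG
  have hD : Drawing G p γ := ⟨h1, fun u v ha => (h2 u v ha).1, fun u v ha => (h2 u v ha).2.2.1,
    fun u v ha => (h2 u v ha).2.2.2.1, fun u v ha => (h2 u v ha).2.2.2.2, h3⟩
  exact sparse_partition (d := 3) (by norm_num) hD.noK5.sparse a b h hab

end Pool.Agent.Results.MP_0422d5_co.PlanarLinearRange
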