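import Pool.Agent.Helper49.PP.Pow
import Pool.Agent.Helper49.PP.Draw2

/-!
# The Path Partition Conjecture for planar graphs, except for nearly balanced pairs of graphs with a
# nearly spanning cycle

Let `G` be a finite graph which can be drawn in the plane without crossings (the hypothesis of the
frozen statement `S06939`), let all paths of `G` have at most `a + b` vertices and all cycles at
most `m` vertices (`m = a + b` is always possible). If
`|a - b| + (a + b - m) ≥ 1000 (a + b) ^ (13 / 14)` then `G` has an exact `(a, b)`-partition.

So for every `ε > 0` and every planar graph `G` with `τ(G)` large enough, `G` has an exact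
`(a, b)`-partition for all pairs `a + b = τ(G)` with `max a b ≥ (1 + ε) min a b`; and for all pairs
if all cycles of `G` have at most `(1 - ε) τ(G)` vertices.

Proof. Let `a ≥ b`, let `X` be a smallest set which meets all paths with more than `b` vertices, and
suppose that `G[X]` has a path with `a + 1` vertices. By `Pool/Agent/Helper41/PP` there is a cycle
`C` with `N ≥ a + 1 + c` vertices, `N + β = a + b`, `c + β + 1 ≤ b`, such that (with `D` the set of
the vertices outside of `X` and `C`) two vertices of `C` with a common component of `D` have no
common component for their successors, no component is attached to two consecutive vertices of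
`C`, and for each set `I` of `c + 1` vertices of `C` there is a path with at least `β + c + 2`
vertices in `D ∪ I`. By `PlanarLinearRange`, `N ≤ 68 c`. We show that `N ≤ 2 c + O(N / t)` where
`t ^ 14` is about `N`; this is a contradiction, as `N - 2 c ≥ a - b + β + 2 ≥ a - b + (a + b - m)`.

1. (Large components.) There are `s ≤ 3 N / (t - 2)` components of `D` which are attached to more
than `t` vertices of `C`. For consecutive vertices of `C` which are attached to such components the
pairs of components are different, and they are edges of a planar minor on `s` vertices: so less
than `6 s` pairs. Hence at most `N / 2 + 3 s` vertices of `C` are attached to a large component. Let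
`U` be the set of the others.
2. (Fragments.) The links within `U` are given by less than `3 |U|` components, each attached to at
most `t` vertices. Contract them: the graph has no `K₅` minor, so by the separator theorem of Alon,
Seymour and Thomas (proved in `Pool/Agent/Helper49/PP/Sep.lean`), used again and again, one can
delete few vertices such that all remaining connected sets have at most `k = O(t ^ 4)` vertices. So
after deleting `O(N / t)` vertices from `U`, each path in `D ∪ U` meets at most `k` vertices of `C`.
Delete also the few vertices of `C` which start a path in `D` with more than `β / 2 + c / 6`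
vertices (two such vertices in the same part of `C` have a common component, otherwise there is a
path with more than `N + β` vertices).
3. (Many long jumps.) As long as there are `c + 1` vertices left, there is a path in `D ∪ U` with at
least `β + c + 2` vertices, so one of its parts in `D` is a jump with at least `c / (2 k)` vertices
through one component. Delete the at most `t` vertices attached to this component, and repeat.
This gives `O(k ^ 3)` disjoint jumps through different components.
4. (Zigzag.) Either more than `r ^ 2` jumps cross one place of `C`, `r = 544 k`; by the theorem of
Erdos and Szekeres `r + 1` of them have their ends in the same or in the opposite order, and a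
zigzag path goes through all of them. Or one can go along `C` through `r + 1` consecutive jumps. In
both cases there is a path with more than `N + β` vertices, a contradiction.
-/

namespace Pool.Agent.Results.MP_0422d5_co.PlanarNearBalanced

open Pool.Agent.Helper49.PP

theorem result (V : Type) [Fintype V] (G : SimpleGraph V)
    (hG : ∃ (p : V → ℝ × ℝ) (γ : V → V → unitInterval → ℝ × ℝ),
      Function.Injective p ∧
      (∀ u v : V, G.Adj u v →
        Continuous (γ u v) ∧ Function.Injective (γ u v) ∧
        γ u v 0 = p u ∧ γ u v 1 = p v ∧
        ∀ w : V, w ≠ u → w ≠ v → ∀ t : unitInterval, γ u v t ≠ p w) ∧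
      (∀ u v w x : V, G.Adj u v → G.Adj w x → s(u, v) ≠ s(w, x) →
        ∀ t₁ t₂ : unitInterval, γ u v t₁ = γ w x t₂ →
          (γ u v t₁ = p u ∨ γ u v t₁ = p v) ∧
          (γ u v t₁ = p w ∨ γ u v t₁ = p x)))
    (a b m : ℕ)
    (hm : ∀ (u : V) (w : G.Walk u u), w.IsCycle → w.length ≤ m)
    (hab : 1000 * ((a : ℝ) + b) ^ (13 / 14 : ℝ) ≤ |(a : ℝ) - b| + ((a : ℝ) + b - m))
    (h : ∀ (u v : V) (q : G.Walk u v), q.IsPath → q.support.length ≤ a + b) :
    ∃ S : Set V,
      (∀ (u v : ↥S) (q : (G.induce S).Walk u v), q.IsPath → q.support.length ≤ a) ∧
      (∀ (u v : ↥Sᶜ) (q : (G.induce Sᶜ).Walk u v), q.IsPath → q.support.length ≤ b) := by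
  obtain ⟨p, γ, h1, h2, h3⟩ := hG
  have hD : Drawing G p γ := ⟨h1, fun u v ha => (h2 u v ha).1, fun u v ha => (h2 u v ha).2.2.1,
    fun u v ha => (h2 u v ha).2.2.2.1, fun u v ha => (h2 u v ha).2.2.2.2, h3⟩
  exact real_partition hD.noK5 a b m hm hab h

end Pool.Agent.Results.MP_0422d5_co.PlanarNearBalanced
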