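import Pool.Agent.Helper41.PP.Final4

/-!
# The Path Partition Conjecture for all graphs in a quadratic range

Let every path of the finite graph `G` have at most `a + b` vertices and let `m = min a b`. If
`max a b ≥ 2 (m - 2) (m - 3)`, then `G` has an exact `(a, b)`-partition.

Proof. Let `b = m`. Let `X` be a smallest set which meets all paths with more than `b` vertices, and
suppose that `G[X]` has a path with `a + 1` vertices. It lies in a cycle; let `C` be a longest cycle
with at least `a + 1` vertices in `X`, `c = |C - X|`, `N = |C|`, `N + β = a + b`, and let `D` be the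
set of the vertices outside `C` and `X`. By the choice of `X` every `c + 1` vertices of `C` together
with `D` contain a path with `b + 1` vertices. A vertex of `C` is high if more than `β / 2` vertices
of `D` can be appended to it, otherwise low; two vertices of `C` are linked if a component of `D` is
attached to both. At most `c` vertices are high, and of `c + 1` low vertices two are linked; in
particular `N ≤ 2 c` if `β ≤ 1`. Let `S` be the set of the vertices `x` such that `x` and its
successor `x'` are low; join `x` and `y` by an edge of `H₁` if they are linked, by an edge of `H₂` if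
`x'` and `y'` are linked. Since `C` is a longest cycle, `H₁` and `H₂` have no common edge, and each
4-cycle with edges alternately in `H₁` and `H₂` is convex in the cyclic order of `C`. This implies
that `H₁` has at most `c |S|` edges, so that `|S| ≤ c (2 c + 1)` and `N ≤ 2 c ^ 2 + 3 c`; on the other
hand `N ≥ a + 1 + c` and `c ≤ b - 1 - β`.
-/

namespace Pool.Agent.Results.MP_0422d5_co.QuadraticRange

theorem result (V : Type) [Fintype V] (G : SimpleGraph V) (a b : ℕ)
    (h : ∀ (u v : V) (q : G.Walk u v), q.IsPath → q.support.length ≤ a + b)
    (hab : 2 * (min a b - 2) * (min a b - 3) ≤ max a b) :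
    ∃ S : Set V,
      (∀ (u v : ↥S) (q : (G.induce S).Walk u v), q.IsPath → q.support.length ≤ a) ∧
      (∀ (u v : ↥Sᶜ) (q : (G.induce Sᶜ).Walk u v), q.IsPath → q.support.length ≤ b) := by
  classical
  rcases le_total b a with hba | hba
  · rw [min_eq_right hba, max_eq_left hba] at hab
    obtain ⟨M, hM, hmax⟩ := Helper41.PP.exists_maximum G b
    refine ⟨(M : Set V)ᶜ, Helper41.PP.quad_sets G a b h hab (by omega) M hM hmax, ?_⟩
    rw [compl_compl]
    exact hM
  · rw [min_eq_left hba, max_eq_right hba] at hab
    obtain ⟨M, hM, hmax⟩ := Helper41.PP.exists_maximum G a
    exact ⟨(M : Set V), hM, Helper41.PP.quad_sets G b a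
      (fun u v q hq => (add_comm a b) ▸ h u v q hq) hab (by omega) M hM hmax⟩

end Pool.Agent.Results.MP_0422d5_co.QuadraticRange
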